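import Pool.Agent.TH915.PA.Main

/-!
# Primes `⌊x (a / b) ^ n⌋` for almost every `x`

For every real `α > 1`, in particular for every rational `a / b > 1`, and almost every `x > 0` the
sequence `⌊x α ^ n⌋` contains infinitely many primes, and the number of `n ≤ N` with `⌊x α ^ n⌋`
prime is, infinitely often, larger than `c log N` for each `c < 1 / log α` and, infinitely often,
smaller than `c log N` for each `c > 1 / log α`. At `x = 1` and `α = a / b` these are the numbers of
the problem. The exponents may be restricted to any set with divergent sum of `1 / (n log n)`; for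
sets with convergent sum of `1 / n` there are only finitely many primes for almost every `x`.
-/

set_option autoImplicit false

namespace Pool.Agent.Results.MP_597c7c_nt.MetricLaw

open Filter Topology MeasureTheory

/-- the integer `⌊α ^ n x⌋` -/
noncomputable def s (α x : ℝ) (n : ℕ) : ℕ := ⌊α ^ n * x⌋₊

open Classical in
/-- the number of `n ≤ N` with `s α x n` prime -/
noncomputable def M (α x : ℝ) (N : ℕ) : ℕ :=
  ((Finset.range (N + 1)).filter (fun n => (s α x n).Prime)).card

open Classical in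
/-- **Primes `⌊x α ^ n⌋` for almost every `x`.** -/
theorem result :
    -- the numbers of the problem are the numbers `s (a / b) 1 n`
    (∀ a b n : ℕ, s ((a : ℝ) / b) 1 n = a ^ n / b ^ n) ∧
    -- the law
    (∀ α : ℝ, 1 < α → ∀ᵐ x : ℝ, 0 < x →
      (∀ c : ℝ, c < 1 / Real.log α → ∃ᶠ N : ℕ in atTop, c * Real.log N < M α x N) ∧
      (∀ c : ℝ, 1 / Real.log α < c → ∃ᶠ N : ℕ in atTop, (M α x N : ℝ) < c * Real.log N)) ∧
    -- sets of exponents
    (∀ α : ℝ, 1 < α → ∀ S : Set ℕ,
      (¬ Summable fun n : ℕ => if n ∈ S then 1 / ((n : ℝ) * Real.log n) else 0) →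
      ∀ᵐ x : ℝ, 0 < x → {n : ℕ | n ∈ S ∧ (s α x n).Prime}.Infinite) ∧
    (∀ α : ℝ, 1 < α → ∀ S : Set ℕ, (Summable fun n : ℕ => if n ∈ S then 1 / (n : ℝ) else 0) →
      ∀ᵐ x : ℝ, 0 < x → {n : ℕ | n ∈ S ∧ (s α x n).Prime}.Finite) := by
  refine ⟨fun a b n => ?_, fun α hα => Pool.Agent.TH915.PA.law_alpha hα,
    fun α hα S hS => Pool.Agent.TH915.PA.inf_alpha hα S hS,
    fun α hα S hS => Pool.Agent.TH915.PA.fin_alpha hα S hS⟩
  unfold s
  rw [mul_one, div_pow]
  have : ((a : ℝ) ^ n / (b : ℝ) ^ n) = (((a ^ n : ℕ) : ℝ) / ((b ^ n : ℕ) : ℝ)) := by push_cast; rfl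
  rw [this]
  exact Nat.floor_div_eq_div _ _

end Pool.Agent.Results.MP_597c7c_nt.MetricLaw
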